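import Pool.Agent.X137.PM.Thy

set_option autoImplicit false

/-!
# MP_5a4a69_co, Q1: a non-trivial (3,1,1,1)-factorisation of `K_12`

There is a set of `4158` of the `10395` perfect matchings of `K_12` such that any three pairwise
disjoint edges lie together in exactly six of them.  It is a union of orbits of a group of order
`162`; the list (a bit mask over all perfect matchings) and the kernel computation are in
`Pool/Agent/X137/PM/Data.lean`.
-/

namespace Pool.Agent.Results.MP_5a4a69_co.TwelvePoints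

/-- `m` is (the edge set of) a perfect matching of the complete graph on `Fin N`. -/
def IsPM {N : ℕ} (m : Finset (Sym2 (Fin N))) : Prop :=
  (∀ e ∈ m, ¬ e.IsDiag) ∧ ∀ v : Fin N, ∃! e, e ∈ m ∧ v ∈ e

/-- `D` is an `(n-3,1,1,1)`-factorisation of `K_{2n}` of index `c > 0`: a non-empty set of perfect
matchings such that any three pairwise disjoint edges of `K_{2n}` lie together in exactly `c` of
them. -/
def IsFactorisation (n c : ℕ) (D : Set (Finset (Sym2 (Fin (2 * n))))) : Prop :=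
  0 < c ∧ D.Nonempty ∧ (∀ m ∈ D, IsPM m) ∧
    ∀ e₁ e₂ e₃ : Sym2 (Fin (2 * n)), ¬ e₁.IsDiag → ¬ e₂.IsDiag → ¬ e₃.IsDiag →
      (∀ v ∈ e₁, v ∉ e₂) → (∀ v ∈ e₁, v ∉ e₃) → (∀ v ∈ e₂, v ∉ e₃) →
      {m | m ∈ D ∧ e₁ ∈ m ∧ e₂ ∈ m ∧ e₃ ∈ m}.ncard = c

/-- There is a non-trivial `(3,1,1,1)`-factorisation of `K_12`, of index `6`: the case `n = 6`. -/
theorem result : ∃ D : Set (Finset (Sym2 (Fin (2 * 6)))),
    IsFactorisation 6 6 D ∧ ∃ m, IsPM m ∧ m ∉ D :=
  ⟨X137.PM.D, ⟨by norm_num, X137.PM.D_nonempty, X137.PM.D_isPM,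
    fun _ _ _ d1 d2 d3 h12 h13 h23 => X137.PM.main d1 d2 d3 h12 h13 h23⟩,
    X137.PM.mk X137.PM.x0, X137.PM.x0_isPM, X137.PM.x0_notMem⟩

end Pool.Agent.Results.MP_5a4a69_co.TwelvePoints
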